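import Pool.Agent.helper77.PV.SpecC

/-!
# Row pv:HOA (MP_376aaf_an): existence and uniqueness of the holonomy
-/

set_option autoImplicit false
set_option linter.unusedSectionVars false
set_option linter.unusedVariables false

open scoped Matrix Topology
open Filter

namespace Pool.Agent.PV

open Pool.Agent.CZ

section hol

variable {B : Type} [NormedRing B] [NormedAlgebra ℂ B] {ι : Type} [Fintype ι] [DecidableEq ι]
  {E : Matrix ι ι C(UnitAddCircle, B)} {V V' : C(unitInterval, Matrix ι ι B)}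

theorem HOA_zero : (((0 : unitInterval) : ℝ) : UnitAddCircle) = 0 := by
  show ((0 : ℝ) : UnitAddCircle) = 0
  rfl

theorem HOA_one : (((1 : unitInterval) : ℝ) : UnitAddCircle) = 0 := by
  show ((1 : ℝ) : UnitAddCircle) = 0
  exact AddCircle.coe_period 1

theorem HOA_evM_mul {κ μ : Type} [Fintype κ] (X : Matrix ι κ C(UnitAddCircle, B)) (Y : Matrix κ μ C(UnitAddCircle, B))
    (t : UnitAddCircle) : (X * Y).map (fun f => f t) = X.map (fun f => f t) * Y.map (fun f => f t) := by
  ext i j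
  rw [Matrix.map_apply, Matrix.mul_apply, Matrix.mul_apply, ContinuousMap.coe_sum, Finset.sum_apply]
  rfl

/-- `E(s) V(s) = V(s)` -/
theorem HOA_f1 (h : Hol E V V') (s : unitInterval) : evM E ((s : ℝ) : UnitAddCircle) * V s = V s := by
  rw [← h.r s, mul_assoc, h.l s, h.ve s]

/-- `V'(s) E(s) = V'(s)` -/
theorem HOA_f2 (h : Hol E V V') (s : unitInterval) : V' s * evM E ((s : ℝ) : UnitAddCircle) = V' s := by
  rw [← h.r s, ← mul_assoc, h.l s, h.ev s]

theorem HOA_f3 (h : Hol E V V') : evM E 0 * evM E 0 = evM E 0 := by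
  have h1 := h.l 0
  have h2 := h.ve 0
  calc evM E 0 * evM E 0 = V' 0 * V 0 * evM E 0 := by rw [h1]
    _ = V' 0 * (V 0 * evM E 0) := by rw [mul_assoc]
    _ = evM E 0 := by rw [h2, h1]

theorem HOA_f4 (h : Hol E V V') : V' 0 = evM E 0 := by
  have h1 := HOA_f2 h 0
  rw [HOA_zero] at h1
  have h2 := h.l 0
  rw [h.v0, h1] at h2
  exact h2

theorem HOA_f5 (h : Hol E V V') : evM E 0 * V 1 = V 1 := by
  have h1 := HOA_f1 h 1
  rwa [HOA_one] at h1

theorem HOA_f6 (h : Hol E V V') : V' 1 * evM E 0 = V' 1 := by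
  have h1 := HOA_f2 h 1
  rwa [HOA_one] at h1

theorem HOA_f7 (h : Hol E V V') : V 1 * V' 1 = evM E 0 := by
  have h1 := h.r 1
  rwa [HOA_one] at h1

/-- the invertible element of a corner -/
theorem HOA_corner {R : Type} [Ring R] (e a b a' b' : R) (he : e * e = e) (h1 : a * e = a) (h4 : e * b = b)
    (h2 : b * e = b) (h3 : e * a = a) (hab : a * b = a') (he' : a' = b') :
    (a + (1 - e)) * (b + (1 - e)) = b' + (1 - e) := by
  have e1 : (a + (1 - e)) * (b + (1 - e)) = a * b + (a - a * e) + (b - e * b) + (1 - e - e + e * e) := by noncomm_ring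
  rw [e1, h1, h4, he, hab, he', sub_self, sub_self]
  abel

/-- the unit -/
noncomputable def HOA_unit (h : Hol E V V') : (Matrix ι ι B)ˣ where
  val := V 1 + (1 - evM E 0)
  inv := V' 1 + (1 - evM E 0)
  val_inv := by
    rw [HOA_corner (evM E 0) (V 1) (V' 1) _ _ (HOA_f3 h) (h.ve 1) (h.ev 1) (HOA_f6 h) (HOA_f5 h) (HOA_f7 h) rfl]
    abel
  inv_val := by
    rw [HOA_corner (evM E 0) (V' 1) (V 1) _ _ (HOA_f3 h) (HOA_f6 h) (HOA_f5 h) (h.ve 1) (h.ev 1) (h.l 1) rfl]
    abel

end hol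

theorem HOA_aux (hPTH : PTH_stmt) (A : Type) [NormedRing A] [NormedAlgebra ℂ A] [CompleteSpace A]
    (ι : Type) [Fintype ι] [DecidableEq ι] (E : C(unitInterval, Matrix ι ι A))
    (h : ∀ t, E t * E t = E t) :
    ∃ W W' : C(unitInterval, Matrix ι ι A), W 0 = 1 ∧ ∀ t, W' t * W t = 1 ∧ W t * W' t = 1 ∧ E t * W t = W t * E 0 := by
  let i1 : NormedRing (Matrix ι ι A) := Matrix.linftyOpNormedRing
  let i2 : NormedAlgebra ℂ (Matrix ι ι A) := Matrix.linftyOpNormedAlgebra
  have i3 : @CompleteSpace (Matrix ι ι A)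
      (i1.toMetricSpace.toPseudoMetricSpace.toUniformSpace) :=
    (inferInstance : CompleteSpace (ι → ι → A))
  obtain ⟨W, W', h0, hW⟩ := @hPTH (Matrix ι ι A) i1 i2 i3 E h
  exact ⟨W, W', h0, hW⟩

theorem HOA (hPTH : PTH_stmt) : HOA_stmt := by
  intro B _ _ _ ι _ _ E hE
  constructor
  · have hc : Continuous fun s : unitInterval => evM E ((s : ℝ) : UnitAddCircle) := by
      refine continuous_matrix fun i j => ?_
      exact (E i j).continuous.comp ((AddCircle.continuous_mk' 1).comp continuous_subtype_val)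
    obtain ⟨F, hF⟩ : ∃ F : C(unitInterval, Matrix ι ι B), F = ⟨fun s : unitInterval => evM E ((s : ℝ) : UnitAddCircle), hc⟩ :=
      ⟨_, rfl⟩
    have hFs : ∀ s : unitInterval, F s = evM E ((s : ℝ) : UnitAddCircle) := fun s => by rw [hF]; rfl
    have hEE : ∀ t, evM E t * evM E t = evM E t := by
      intro t
      have := HOA_evM_mul E E t
      rw [hE] at this
      exact this.symm
    obtain ⟨W, W', h0, h1⟩ := HOA_aux hPTH B ι F (by
      intro s
      rw [hFs]
      exact hEE _)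
    have hF0 : F 0 = evM E 0 := by rw [hFs, HOA_zero]
    have hol : Hol E ⟨fun s => W s * evM E 0, W.continuous.mul continuous_const⟩
        ⟨fun s => evM E 0 * W' s, continuous_const.mul W'.continuous⟩ := by
      constructor
      · show W 0 * evM E 0 = evM E 0
        rw [h0, one_mul]
      · intro s
        show evM E 0 * W' s * (W s * evM E 0) = evM E 0
        calc evM E 0 * W' s * (W s * evM E 0) = evM E 0 * (W' s * W s) * evM E 0 := by simp only [mul_assoc]
          _ = evM E 0 := by rw [(h1 s).1, mul_one, hEE]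
      · intro s
        show W s * evM E 0 * (evM E 0 * W' s) = evM E ((s : ℝ) : UnitAddCircle)
        calc W s * evM E 0 * (evM E 0 * W' s) = W s * (evM E 0 * evM E 0) * W' s := by simp only [mul_assoc]
          _ = W s * F 0 * W' s := by rw [hEE, hF0]
          _ = F s * (W s * W' s) := by rw [← (h1 s).2.2]; simp only [mul_assoc]
          _ = evM E ((s : ℝ) : UnitAddCircle) := by rw [(h1 s).2.1, mul_one, hFs]
      · intro s
        show W s * evM E 0 * evM E 0 = W s * evM E 0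
        rw [mul_assoc, hEE]
      · intro s
        show evM E 0 * (evM E 0 * W' s) = evM E 0 * W' s
        rw [← mul_assoc, hEE]
    exact ⟨_, _, HOA_unit hol, hol, rfl⟩
  · intro V₁ V₁' V₂ V₂' g₁ g₂ H₁ H₂ e₁ e₂
    have hE0 := HOA_f3 H₁
    -- the path of units
    have hcor : ∀ (V V' U U' : C(unitInterval, Matrix ι ι B)), Hol E V V' → Hol E U U' → ∀ s : unitInterval,
        (V' s * U s + (1 - evM E 0)) * (U' s * V s + (1 - evM E 0)) = 1 := by
      intro V V' U U' HV HU s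
      rw [HOA_corner (evM E 0) (V' s * U s) (U' s * V s) _ (evM E 0) hE0 ?_ ?_ ?_ ?_ rfl ?_]
      · abel
      · rw [mul_assoc, HU.ve s]
      · rw [← mul_assoc, HU.ev s]
      · rw [mul_assoc, HV.ve s]
      · rw [← mul_assoc, HV.ev s]
      · calc V' s * U s * (U' s * V s) = V' s * (U s * U' s) * V s := by simp only [mul_assoc]
          _ = V' s * V s := by rw [HU.r s, HOA_f2 HV s]
          _ = evM E 0 := HV.l s
    refine ⟨⟨fun s => (g₁ : Matrix ι ι B) * (V₁' s * V₂ s + (1 - evM E 0)),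
      continuous_const.mul ((V₁'.continuous.mul V₂.continuous).add continuous_const)⟩, fun s => ?_, ?_, ?_⟩
    · exact g₁.isUnit.mul ⟨⟨_, _, hcor V₁ V₁' V₂ V₂' H₁ H₂ s, hcor V₂ V₂' V₁ V₁' H₂ H₁ s⟩, rfl⟩
    · show (g₁ : Matrix ι ι B) * (V₁' 0 * V₂ 0 + (1 - evM E 0)) = g₁
      rw [HOA_f4 H₁, H₂.v0, hE0, add_sub_cancel, mul_one]
    · show (g₁ : Matrix ι ι B) * (V₁' 1 * V₂ 1 + (1 - evM E 0)) = g₂
      rw [e₁, e₂, HOA_corner (evM E 0) (V₁ 1) (V₁' 1 * V₂ 1) _ (V₂ 1) hE0 (H₁.ve 1) ?_ ?_ (HOA_f5 H₁) rfl ?_]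
      · rw [← mul_assoc, H₁.ev 1]
      · rw [mul_assoc, H₂.ve 1]
      · rw [← mul_assoc, HOA_f7 H₁, HOA_f5 H₂]

end Pool.Agent.PV
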