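import Pool.Agent.helper42.PV.HON

/-!
# Row pv:HOE (MP_376aaf_an): the holonomy homomorphism
-/

set_option autoImplicit false
set_option linter.unusedSectionVars false
set_option linter.unusedVariables false

open scoped Matrix Topology
open Filter

namespace Pool.Agent.PV

open Pool.Agent.CZ

section transport

variable {B : Type} [NormedRing B] [NormedAlgebra ℂ B] {ι κ : Type} [Fintype ι] [DecidableEq ι] [Fintype κ] [DecidableEq κ]
  {E : Matrix ι ι C(UnitAddCircle, B)} {F : Matrix κ κ C(UnitAddCircle, B)} {V V' : C(unitInterval, Matrix ι ι B)}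

theorem HOE_c (X : Matrix ι κ C(UnitAddCircle, B)) :
    Continuous fun s : unitInterval => X.map (fun f => f ((s : ℝ) : UnitAddCircle)) := by
  refine continuous_matrix fun i j => ?_
  exact (X i j).continuous.comp ((AddCircle.continuous_mk' 1).comp continuous_subtype_val)

/-- transport of the data along an equivalence of idempotents -/
theorem HOE_tr (h : Hol E V V') (X : Matrix ι κ C(UnitAddCircle, B)) (Y : Matrix κ ι C(UnitAddCircle, B))
    (h1 : X * Y = E) (h2 : Y * X = F) (h3 : X * F = X) (h4 : F * Y = Y) :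
    ∃ W W' : C(unitInterval, Matrix κ κ B), Hol F W W' ∧
      W 1 = Y.map (fun f => f (0 : UnitAddCircle)) * V 1 * X.map (fun f => f (0 : UnitAddCircle)) := by
  obtain ⟨x, hx⟩ : ∃ x : UnitAddCircle → Matrix ι κ B, ∀ t, X.map (fun f => f t) = x t := ⟨_, fun _ => rfl⟩
  obtain ⟨y, hy⟩ : ∃ y : UnitAddCircle → Matrix κ ι B, ∀ t, Y.map (fun f => f t) = y t := ⟨_, fun _ => rfl⟩
  have a1 : ∀ t : UnitAddCircle, x t * y t = evM E t := by
    intro t
    rw [← hx, ← hy, ← HOA_evM_mul, h1]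
    rfl
  have a2 : ∀ t : UnitAddCircle, y t * x t = evM F t := by
    intro t
    rw [← hx, ← hy, ← HOA_evM_mul, h2]
    rfl
  have a3 : ∀ t : UnitAddCircle, x t * evM F t = x t := by
    intro t
    have := HOA_evM_mul X F t
    rw [h3, hx] at this
    exact this.symm
  have a4 : ∀ t : UnitAddCircle, evM F t * y t = y t := by
    intro t
    have := HOA_evM_mul F Y t
    rw [h4, hy] at this
    exact this.symm
  have cx : Continuous fun s : unitInterval => x ((s : ℝ) : UnitAddCircle) := by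
    have := HOE_c X
    simp only [hx] at this
    exact this
  have cy : Continuous fun s : unitInterval => y ((s : ℝ) : UnitAddCircle) := by
    have := HOE_c Y
    simp only [hy] at this
    exact this
  obtain ⟨e, he⟩ : ∃ e : UnitAddCircle → Matrix ι ι B, ∀ t, evM E t = e t := ⟨_, fun _ => rfl⟩
  obtain ⟨f, hf⟩ : ∃ f : UnitAddCircle → Matrix κ κ B, ∀ t, evM F t = f t := ⟨_, fun _ => rfl⟩
  have g1 : ∀ s : unitInterval, e ((s : ℝ) : UnitAddCircle) * V s = V s := fun s => by rw [← he]; exact HOA_f1 h s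
  have g2 : ∀ s : unitInterval, V' s * V s = e 0 := fun s => by rw [← he]; exact h.l s
  have g3 : ∀ s : unitInterval, V s * V' s = e ((s : ℝ) : UnitAddCircle) := fun s => by rw [← he]; exact h.r s
  have g4 : ∀ s : unitInterval, V s * e 0 = V s := fun s => by rw [← he]; exact h.ve s
  have g5 : V 0 = e 0 := by rw [← he]; exact h.v0
  simp only [he] at a1
  simp only [hf] at a2 a3 a4
  have a5 : ∀ t : UnitAddCircle, y t * (x t * y t) * x t = f t := by
    intro t
    calc y t * (x t * y t) * x t = y t * (x t * (y t * x t)) := by simp only [Matrix.mul_assoc]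
      _ = f t := by rw [a2, a3, a2]
  rw [hx, hy]
  refine ⟨⟨fun s => y ((s : ℝ) : UnitAddCircle) * V s * x 0, (cy.matrix_mul V.continuous).matrix_mul continuous_const⟩,
    ⟨fun s => y 0 * V' s * x ((s : ℝ) : UnitAddCircle), (continuous_const.matrix_mul V'.continuous).matrix_mul cx⟩, ?_, ?_⟩
  · constructor
    · show y (((0 : unitInterval) : ℝ) : UnitAddCircle) * V 0 * x 0 = evM F 0
      rw [HOA_zero, g5, ← a1, a5, hf]
    · intro s
      show y 0 * V' s * x ((s : ℝ) : UnitAddCircle) * (y ((s : ℝ) : UnitAddCircle) * V s * x 0) = evM F 0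
      calc y 0 * V' s * x ((s : ℝ) : UnitAddCircle) * (y ((s : ℝ) : UnitAddCircle) * V s * x 0)
          = y 0 * (V' s * ((x ((s : ℝ) : UnitAddCircle) * y ((s : ℝ) : UnitAddCircle)) * V s)) * x 0 := by
            simp only [Matrix.mul_assoc]
        _ = evM F 0 := by rw [a1, g1, g2, ← a1, a5, hf]
    · intro s
      show y ((s : ℝ) : UnitAddCircle) * V s * x 0 * (y 0 * V' s * x ((s : ℝ) : UnitAddCircle)) = evM F _
      calc y ((s : ℝ) : UnitAddCircle) * V s * x 0 * (y 0 * V' s * x ((s : ℝ) : UnitAddCircle))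
          = y ((s : ℝ) : UnitAddCircle) * ((V s * (x 0 * y 0)) * V' s) * x ((s : ℝ) : UnitAddCircle) := by
            simp only [Matrix.mul_assoc]
        _ = evM F _ := by rw [a1, g4, g3, ← a1, a5, hf]
    · intro s
      show y ((s : ℝ) : UnitAddCircle) * V s * x 0 * evM F 0 = y ((s : ℝ) : UnitAddCircle) * V s * x 0
      rw [Matrix.mul_assoc, hf, a3]
    · intro s
      show evM F 0 * (y 0 * V' s * x ((s : ℝ) : UnitAddCircle)) = y 0 * V' s * x ((s : ℝ) : UnitAddCircle)
      rw [hf, ← Matrix.mul_assoc, ← Matrix.mul_assoc, a4]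
  · show y (((1 : unitInterval) : ℝ) : UnitAddCircle) * V 1 * x 0 = _
    rw [HOA_one]

/-- sums -/
theorem HOE_add {n : ℕ} {E F : Matrix (Fin n) (Fin n) C(UnitAddCircle, B)} {V V' W W' : C(unitInterval, Matrix (Fin n) (Fin n) B)}
    (h : Hol E V V') (h' : Hol F W W') (h1 : E * F = 0) (h2 : F * E = 0) :
    Hol (E + F) (V + W) (V' + W') ∧
      (V 1 + (1 - evM E 0)) * (W 1 + (1 - evM F 0)) = (V + W) 1 + (1 - evM (E + F) 0) := by
  have b1 : ∀ t, evM E t * evM F t = 0 := by
    intro t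
    have := HOA_evM_mul E F t
    rw [h1] at this
    exact this.symm.trans (Matrix.map_zero _ rfl)
  have b2 : ∀ t, evM F t * evM E t = 0 := by
    intro t
    have := HOA_evM_mul F E t
    rw [h2] at this
    exact this.symm.trans (Matrix.map_zero _ rfl)
  have hs : ∀ t, evM (E + F) t = evM E t + evM F t := by
    intro t
    ext i j
    rfl
  have c1 : ∀ s, V' s * W s = 0 := by
    intro s
    rw [← HOA_f2 h s, ← HOA_f1 h' s, mul_assoc, ← mul_assoc (evM E _), b1, zero_mul, mul_zero]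
  have c2 : ∀ s, W' s * V s = 0 := by
    intro s
    rw [← HOA_f2 h' s, ← HOA_f1 h s, mul_assoc, ← mul_assoc (evM F _), b2, zero_mul, mul_zero]
  have c3 : ∀ s, V s * W' s = 0 := by
    intro s
    rw [← h.ve s, ← h'.ev s, mul_assoc, ← mul_assoc (evM E 0), b1, zero_mul, mul_zero]
  have c4 : ∀ s, W s * V' s = 0 := by
    intro s
    rw [← h'.ve s, ← h.ev s, mul_assoc, ← mul_assoc (evM F 0), b2, zero_mul, mul_zero]
  have c5 : ∀ s, V s * evM F 0 = 0 := by
    intro s
    rw [← h.ve s, mul_assoc, b1, mul_zero]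
  have c6 : ∀ s, W s * evM E 0 = 0 := by
    intro s
    rw [← h'.ve s, mul_assoc, b2, mul_zero]
  have c7 : ∀ s, evM F 0 * V' s = 0 := by
    intro s
    rw [← h.ev s, ← mul_assoc, b2, zero_mul]
  have c8 : ∀ s, evM E 0 * W' s = 0 := by
    intro s
    rw [← h'.ev s, ← mul_assoc, b1, zero_mul]
  constructor
  · constructor
    · show V 0 + W 0 = _
      rw [hs, h.v0, h'.v0]
    · intro s
      show (V' s + W' s) * (V s + W s) = _
      rw [hs, mul_add, add_mul, add_mul, c1, c2, h.l s, h'.l s, add_zero, zero_add]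
    · intro s
      show (V s + W s) * (V' s + W' s) = _
      rw [hs, mul_add, add_mul, add_mul, c3, c4, h.r s, h'.r s, add_zero, zero_add]
    · intro s
      show (V s + W s) * evM (E + F) 0 = V s + W s
      rw [hs, mul_add, add_mul, add_mul, c5, c6, h.ve s, h'.ve s, add_zero, zero_add]
    · intro s
      show evM (E + F) 0 * (V' s + W' s) = V' s + W' s
      rw [hs, mul_add, add_mul, add_mul, c7, c8, h.ev s, h'.ev s, add_zero, zero_add]
  · show (V 1 + (1 - evM E 0)) * (W 1 + (1 - evM F 0)) = V 1 + W 1 + (1 - evM (E + F) 0)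
    rw [hs]
    have d1 : evM E 0 * W 1 = 0 := by
      rw [← HOA_f5 h', ← mul_assoc, b1, zero_mul]
    have d2 : V 1 * W 1 = 0 := by
      rw [← h.ve 1, mul_assoc, d1, mul_zero]
    have d3 := c5 1
    have d4 := b1 0
    have e1 : (V 1 + (1 - evM E 0)) * (W 1 + (1 - evM F 0)) = V 1 * W 1 + V 1 - V 1 * evM F 0 + W 1 - evM E 0 * W 1 +
        (1 - evM E 0 - evM F 0 + evM E 0 * evM F 0) := by noncomm_ring
    rw [e1, d1, d2, d3, d4]
    abel

end transport

/-- normalised equivalences -/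
theorem HOE_alg {R : Type} [Ring R] {α β : Type} [Fintype α] [Fintype β] (e : Matrix α α R) (f : Matrix β β R)
    (x : Matrix α β R) (y : Matrix β α R) (pe : e * e = e) (qe : f * f = f) (hx : x * y = e) (hy : y * x = f) :
    ∃ (X : Matrix α β R) (Y : Matrix β α R), e * X = X ∧ X * f = X ∧ f * Y = Y ∧ Y * e = Y ∧ X * Y = e ∧ Y * X = f := by
  have xq : x * f * y = e := by
    rw [← hy]
    calc x * (y * x) * y = (x * y) * (x * y) := by simp only [Matrix.mul_assoc]
      _ = e := by rw [hx, pe]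
  have yp : y * e * x = f := by
    rw [← hx]
    calc y * (x * y) * x = (y * x) * (y * x) := by simp only [Matrix.mul_assoc]
      _ = f := by rw [hy, qe]
  refine ⟨e * x * f, f * y * e, ?_, ?_, ?_, ?_, ?_, ?_⟩
  · rw [← Matrix.mul_assoc, ← Matrix.mul_assoc, pe]
  · rw [Matrix.mul_assoc, qe]
  · rw [← Matrix.mul_assoc, ← Matrix.mul_assoc, qe]
  · rw [Matrix.mul_assoc, pe]
  · calc e * x * f * (f * y * e) = e * (x * (f * f) * y) * e := by simp only [Matrix.mul_assoc]
      _ = e := by rw [qe, xq, pe, pe]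
  · calc f * y * e * (e * x * f) = f * (y * (e * e) * x) * f := by simp only [Matrix.mul_assoc]
      _ = f := by rw [pe, yp, qe, qe]

/-- reindexing -/
theorem HOE_rx {B : Type} [NormedRing B] [NormedAlgebra ℂ B] {ι κ : Type} [Fintype ι] [DecidableEq ι] [Fintype κ]
    [DecidableEq κ] {E : Matrix ι ι C(UnitAddCircle, B)} {W W' : C(unitInterval, Matrix ι ι B)} (HW : Hol E W W')
    (f : κ ≃ ι) : Hol (E.submatrix f f) ⟨fun s => (W s).submatrix f f, W.continuous.matrix_submatrix _ _⟩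
      ⟨fun s => (W' s).submatrix f f, W'.continuous.matrix_submatrix _ _⟩ := by
  have hev : ∀ t, evM (E.submatrix f f) t = (evM E t).submatrix f f := fun t => rfl
  constructor
  · show (W 0).submatrix f f = _
    rw [hev, HW.v0]
  · intro s
    show (W' s).submatrix f f * (W s).submatrix f f = _
    rw [hev, Matrix.submatrix_mul_equiv, HW.l s]
  · intro s
    show (W s).submatrix f f * (W' s).submatrix f f = _
    rw [hev, Matrix.submatrix_mul_equiv, HW.r s]
  · intro s
    show (W s).submatrix f f * _ = (W s).submatrix f f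
    rw [hev, Matrix.submatrix_mul_equiv, HW.ve s]
  · intro s
    show _ * (W' s).submatrix f f = (W' s).submatrix f f
    rw [hev, Matrix.submatrix_mul_equiv, HW.ev s]

theorem HOE_fin (hK1R : K1R_stmt) {B : Type} [NormedRing B] [NormedAlgebra ℂ B]
    (g : ∀ p : IdemMat C(UnitAddCircle, B), (Matrix (Fin p.n) (Fin p.n) B)ˣ)
    (huniq : ∀ (p : IdemMat C(UnitAddCircle, B)) (W W' : C(unitInterval, Matrix (Fin p.n) (Fin p.n) B))
      (h : (Matrix (Fin p.n) (Fin p.n) B)ˣ), Hol p.e W W' → (h : Matrix (Fin p.n) (Fin p.n) B) = W 1 + (1 - evM p.e 0) →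
      k1 (g p) = k1 h) (Φ : FreeAbelianGroup (IdemMat C(UnitAddCircle, B)) →+ K1 B)
    (hΦ : ∀ p, Φ (FreeAbelianGroup.of p) = k1 (g p))
    (hker : AddSubgroup.closure (K0Rel C(UnitAddCircle, B)) ≤ Φ.ker) :
    IsDe B (QuotientAddGroup.lift _ Φ hker) := by
  intro ι _ _ E hE W W' h HW hh
  have h2 := huniq ⟨Fintype.card ι, E.submatrix (Fintype.equivFin ι).symm (Fintype.equivFin ι).symm, by
    rw [Matrix.submatrix_mul_equiv, hE]⟩ _ _ (rix (Fintype.equivFin ι) h) (HOE_rx HW (Fintype.equivFin ι).symm) (by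
      show (h : Matrix ι ι B).submatrix (Fintype.equivFin ι).symm (Fintype.equivFin ι).symm =
        (W 1).submatrix (Fintype.equivFin ι).symm (Fintype.equivFin ι).symm +
        (1 - (evM E 0).submatrix (Fintype.equivFin ι).symm (Fintype.equivFin ι).symm)
      rw [hh, ← Matrix.submatrix_one_equiv (Fintype.equivFin ι).symm]
      rfl)
  have h3 := hK1R B ι (Fin (Fintype.card ι)) (Fintype.equivFin ι) h
  exact (hΦ _).trans (h2.trans h3)

theorem HOE (hHOA : HOA_stmt) (hK1T : K1T_stmt) (hK1M : K1M_stmt) (hK1R : K1R_stmt) (hK1B : K1B_stmt)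
    (hK0S : K0S_stmt) : HOE_stmt := by
  intro B _ _ _
  choose V V' g H hg using fun p : IdemMat C(UnitAddCircle, B) => (hHOA B (Fin p.n) p.e p.idem).1
  have huniq : ∀ (p : IdemMat C(UnitAddCircle, B)) (W W' : C(unitInterval, Matrix (Fin p.n) (Fin p.n) B))
      (h : (Matrix (Fin p.n) (Fin p.n) B)ˣ), Hol p.e W W' → (h : Matrix (Fin p.n) (Fin p.n) B) = W 1 + (1 - evM p.e 0) →
      k1 (g p) = k1 h := by
    intro p W W' h H' hh
    exact (hK1M B (Fin p.n) (g p) h).2.2.2 ((hHOA B (Fin p.n) p.e p.idem).2 _ _ _ _ _ _ (H p) H' (hg p) hh)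
  let Φ : FreeAbelianGroup (IdemMat C(UnitAddCircle, B)) →+ K1 B := FreeAbelianGroup.lift fun p => k1 (g p)
  have hΦ : ∀ p, Φ (FreeAbelianGroup.of p) = k1 (g p) := fun p => FreeAbelianGroup.lift_apply_of _ _
  have hker : AddSubgroup.closure (K0Rel C(UnitAddCircle, B)) ≤ Φ.ker := by
    rw [AddSubgroup.closure_le]
    rintro z (⟨p, q, ⟨x, y, hx, hy⟩, rfl⟩ | ⟨n, e, f, he, hf, hs, hef, hfe, rfl⟩)
    · show Φ _ = 0
      rw [map_sub, hΦ, hΦ]
      show k1 (g p) - k1 (g q) = 0
      rw [sub_eq_zero]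
      obtain ⟨X, Y, i1, i2, i3, i4, i5, i6⟩ := HOE_alg p.e q.e x y p.idem q.idem hx hy
      obtain ⟨W, W', HW, hW1⟩ := HOE_tr (H p) X Y i5 i6 i2 i3
      rw [huniq q W W' (HOA_unit HW) HW rfl]
      have ev : ∀ {α β γ : Type} [Fintype α] [DecidableEq α] [Fintype β] (P : Matrix α β C(UnitAddCircle, B)) (Q : Matrix β γ C(UnitAddCircle, B))
          (R : Matrix α γ C(UnitAddCircle, B)), P * Q = R → P.map (fun f => f (0 : UnitAddCircle)) *
          Q.map (fun f => f (0 : UnitAddCircle)) = R.map (fun f => f (0 : UnitAddCircle)) := by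
        intro α β γ _ _ _ P Q R hPQ
        rw [← HOA_evM_mul, hPQ]
      refine hK1T.2 B (Fin p.n) (Fin q.n) (evM p.e 0) (evM q.e 0) (X.map fun f => f (0 : UnitAddCircle))
        (Y.map fun f => f (0 : UnitAddCircle)) (V p 1) (g p) (HOA_unit HW) (ev _ _ _ i5) (ev _ _ _ i6) (ev _ _ _ i1)
        (ev _ _ _ i2) (ev _ _ _ i3) (ev _ _ _ i4) (HOA_f5 (H p)) ((H p).ve 1) (hg p) ?_
      rw [← hW1]
      rfl
    · show Φ _ = 0
      rw [map_sub, map_sub, hΦ, hΦ, hΦ]
      obtain ⟨p, hp⟩ : ∃ p : IdemMat C(UnitAddCircle, B), p = ⟨n, e, he⟩ := ⟨_, rfl⟩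
      have H1 := H ⟨n, e, he⟩
      have H2 := H ⟨n, f, hf⟩
      obtain ⟨H3, h4⟩ := HOE_add H1 H2 hef hfe
      have h5 := huniq ⟨n, e + f, hs⟩ _ _ (g ⟨n, e, he⟩ * g ⟨n, f, hf⟩) H3 (by
        rw [Units.val_mul, hg, hg]
        exact h4)
      have h6 := (hK1M B (Fin n) (g ⟨n, e, he⟩) (g ⟨n, f, hf⟩)).1
      show k1 (g ⟨n, e + f, hs⟩) - k1 (g ⟨n, e, he⟩) - k1 (g ⟨n, f, hf⟩) = 0
      rw [h5, h6]
      abel
  exact ⟨QuotientAddGroup.lift _ Φ hker, HOE_fin hK1R g huniq Φ hΦ hker⟩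

end Pool.Agent.PV
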