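import Pool.Agent.helper42.PV.HOA

/-!
# Row pv:HON (MP_376aaf_an): naturality of the holonomy
-/

set_option autoImplicit false
set_option linter.unusedSectionVars false
set_option linter.unusedVariables false

open scoped Matrix Topology
open Filter

namespace Pool.Agent.PV

open Pool.Agent.CZ

theorem HON_k0 {A : Type} [Ring A] (p : IdemMat A) : k0 p.e p.idem = cls p := by
  unfold k0
  refine (QuotientAddGroup.eq_iff_sub_mem).2 (AddSubgroup.subset_closure (Or.inl ⟨_, p, ⟨p.e.submatrix
    (Fintype.equivFin (Fin p.n)).symm (Equiv.refl (Fin p.n)), p.e.submatrix (Equiv.refl (Fin p.n))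
    (Fintype.equivFin (Fin p.n)).symm, ?_, ?_⟩, rfl⟩))
  · rw [Matrix.submatrix_mul_equiv, p.idem]
  · rw [Matrix.submatrix_mul_equiv, p.idem]
    rfl

theorem HON_k1 {A : Type} [Ring A] [TopologicalSpace A] {ι : Type} [Fintype ι] [DecidableEq ι] :
    k1 (1 : (Matrix ι ι A)ˣ) = 0 := by
  unfold k1
  obtain ⟨n, hn⟩ : ∃ n, n = Fintype.card ι := ⟨_, rfl⟩
  have h0 : rix (Fintype.equivFin ι) (1 : (Matrix ι ι A)ˣ) = 1 := by
    unfold rix
    exact map_one _
  rw [h0]
  have h1 : cls1 (⟨Fintype.card ι, 1 * 1⟩ : InvMat A) = cls1 ⟨Fintype.card ι, 1⟩ + cls1 ⟨Fintype.card ι, 1⟩ := by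
    have : FreeAbelianGroup.of (⟨Fintype.card ι, 1 * 1⟩ : InvMat A) - FreeAbelianGroup.of ⟨Fintype.card ι, 1⟩ -
      FreeAbelianGroup.of ⟨Fintype.card ι, 1⟩ ∈ AddSubgroup.closure (K1Rel A) :=
      AddSubgroup.subset_closure (Or.inl ⟨Fintype.card ι, 1, 1, rfl⟩)
    have h2 := (QuotientAddGroup.eq_zero_iff _).2 this
    have h3 : cls1 (⟨Fintype.card ι, 1 * 1⟩ : InvMat A) - cls1 ⟨Fintype.card ι, 1⟩ - cls1 ⟨Fintype.card ι, 1⟩ = 0 := h2
    rw [sub_sub, sub_eq_zero] at h3
    exact h3
  rw [mul_one] at h1
  exact left_eq_add.1 h1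

theorem HON (hHOA : HOA_stmt) (hK0G : K0G_stmt) (hFUN : FUN_stmt) : HON_stmt := by
  constructor
  · intro B D _ _ _ _ _ _ φ hφ hφ' de de' hde hde'
    have key : ∀ p : IdemMat C(UnitAddCircle, B), k1map φ.toRingHom hφ' (de (cls p)) =
        de' (k0map (cmpC UnitAddCircle φ hφ).toRingHom (cls p)) := by
      intro p
      obtain ⟨V, V', g, H, hg⟩ := (hHOA B (Fin p.n) p.e p.idem).1
      have hev : ∀ t, evM (p.e.map (cmpC UnitAddCircle φ hφ).toRingHom) t = (evM p.e t).map φ.toRingHom := by
        intro t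
        ext i j
        rfl
      have hm : p.e.map (cmpC UnitAddCircle φ hφ).toRingHom * p.e.map (cmpC UnitAddCircle φ hφ).toRingHom =
          p.e.map (cmpC UnitAddCircle φ hφ).toRingHom := by
        rw [← Matrix.map_mul, p.idem]
      have h1 : k1map φ.toRingHom hφ' (de (cls p)) = k1 (umap φ.toRingHom g) := by
        rw [← HON_k0, hde (Fin p.n) p.e p.idem V V' g H hg, k1map_k1]
      have h2 : k0map (cmpC UnitAddCircle φ hφ).toRingHom (cls p) = k0 (p.e.map (cmpC UnitAddCircle φ hφ).toRingHom) hm := by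
        rw [← HON_k0]
        rfl
      have hmul : ∀ X Y : Matrix (Fin p.n) (Fin p.n) B, (X * Y).map φ.toRingHom = X.map φ.toRingHom * Y.map φ.toRingHom := by
        intro X Y
        exact Matrix.map_mul
      have H2 : Hol (p.e.map (cmpC UnitAddCircle φ hφ).toRingHom)
          ⟨fun s => (V s).map φ.toRingHom, V.continuous.matrix_map hφ'⟩
          ⟨fun s => (V' s).map φ.toRingHom, V'.continuous.matrix_map hφ'⟩ := by
        constructor
        · show (V 0).map φ.toRingHom = _
          rw [hev, H.v0]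
        · intro s
          show (V' s).map φ.toRingHom * (V s).map φ.toRingHom = _
          rw [hev, ← hmul, H.l s]
        · intro s
          show (V s).map φ.toRingHom * (V' s).map φ.toRingHom = _
          rw [hev, ← hmul, H.r s]
        · intro s
          show (V s).map φ.toRingHom * _ = (V s).map φ.toRingHom
          rw [hev, ← hmul, H.ve s]
        · intro s
          show _ * (V' s).map φ.toRingHom = (V' s).map φ.toRingHom
          rw [hev, ← hmul, H.ev s]
      rw [h1, h2]
      symm
      refine hde' (Fin p.n) _ hm _ _ (umap φ.toRingHom g) H2 ?_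
      rw [hev]
      show (g : Matrix (Fin p.n) (Fin p.n) B).map φ.toRingHom = (V 1).map φ.toRingHom + (1 - (evM p.e 0).map φ.toRingHom)
      rw [hg]
      have e1 := map_add φ.toRingHom.mapMatrix (V 1) (1 - evM p.e 0)
      have e2 := map_sub φ.toRingHom.mapMatrix (1 : Matrix (Fin p.n) (Fin p.n) B) (evM p.e 0)
      have e3 := map_one (φ.toRingHom.mapMatrix (m := Fin p.n))
      rw [e2, e3] at e1
      exact e1
    intro z
    obtain ⟨n, m, e, he, rfl⟩ := hK0G C(UnitAddCircle, B) z
    have k1' := key ⟨n, e, he⟩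
    rw [← HON_k0] at k1'
    have k2 := key ⟨1, 1, one_mul 1⟩
    have k2' : k1map φ.toRingHom hφ' (de (unitCls C(UnitAddCircle, B))) =
        de' (k0map (cmpC UnitAddCircle φ hφ).toRingHom (unitCls C(UnitAddCircle, B))) := k2
    rw [map_sub, map_sub, map_sub, map_sub, map_nsmul, map_nsmul, map_nsmul, map_nsmul, k1', k2']
  · intro B _ _ _ de hde
    have key : ∀ p : IdemMat B, de (k0map (cl B).toRingHom (cls p)) = 0 := by
      intro p
      have hev : ∀ t, evM (p.e.map (cl B).toRingHom) t = p.e := by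
        intro t
        ext i j
        rfl
      have hm : p.e.map (cl B).toRingHom * p.e.map (cl B).toRingHom = p.e.map (cl B).toRingHom := by
        rw [← Matrix.map_mul, p.idem]
      have h2 : k0map (cl B).toRingHom (cls p) = k0 (p.e.map (cl B).toRingHom) hm := by
        rw [← HON_k0]
        rfl
      have H2 : Hol (p.e.map (cl B).toRingHom) (ContinuousMap.const _ p.e) (ContinuousMap.const _ p.e) := by
        constructor
        · rw [hev]
          rfl
        · intro s
          rw [hev]
          exact p.idem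
        · intro s
          rw [hev]
          exact p.idem
        · intro s
          rw [hev]
          exact p.idem
        · intro s
          rw [hev]
          exact p.idem
      rw [h2, hde (Fin p.n) _ hm _ _ 1 H2 ?_, HON_k1]
      rw [hev]
      show (1 : Matrix (Fin p.n) (Fin p.n) B) = p.e + (1 - p.e)
      rw [add_sub_cancel]
    intro z
    obtain ⟨n, m, e, he, rfl⟩ := hK0G B z
    have k1' := key ⟨n, e, he⟩
    rw [← HON_k0] at k1'
    have k2' : de (k0map (cl B).toRingHom (unitCls B)) = 0 := key ⟨1, 1, one_mul 1⟩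
    rw [map_sub, map_sub, map_nsmul, map_nsmul, k1', k2', nsmul_zero, sub_zero]

end Pool.Agent.PV
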