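import Pool.Agent.helper77.PV.SpecA

/-!
# Row pv:K1Z (MP_376aaf_an): `k1 g = 0` means that `g ⊕ 1` is joined to `1`
-/

set_option autoImplicit false
set_option linter.unusedSectionVars false

open scoped Matrix Topology
open Filter

namespace Pool.Agent.PV

open Pool.Agent.CZ

section basics

variable {A : Type} [Ring A]
variable {ι κ μ ν : Type} [Fintype ι] [DecidableEq ι] [Fintype κ] [DecidableEq κ] [Fintype μ] [DecidableEq μ]
  [Fintype ν] [DecidableEq ν]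

/-- block sum of invertible matrices -/
private def K1Z_bs (g : (Matrix ι ι A)ˣ) (h : (Matrix κ κ A)ˣ) : (Matrix (ι ⊕ κ) (ι ⊕ κ) A)ˣ where
  val := Matrix.fromBlocks (g : Matrix ι ι A) 0 0 (h : Matrix κ κ A)
  inv := Matrix.fromBlocks ((g⁻¹ : (Matrix ι ι A)ˣ) : Matrix ι ι A) 0 0 ((h⁻¹ : (Matrix κ κ A)ˣ) : Matrix κ κ A)
  val_inv := by
    rw [Matrix.fromBlocks_multiply, ← Matrix.fromBlocks_one]
    simp
  inv_val := by
    rw [Matrix.fromBlocks_multiply, ← Matrix.fromBlocks_one]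
    simp

private theorem K1Z_bs_val (g : (Matrix ι ι A)ˣ) (h : (Matrix κ κ A)ˣ) :
    (K1Z_bs g h : Matrix (ι ⊕ κ) (ι ⊕ κ) A) = Matrix.fromBlocks (g : Matrix ι ι A) 0 0 (h : Matrix κ κ A) := rfl

private theorem K1Z_rix_val (f : ι ≃ κ) (g : (Matrix ι ι A)ˣ) :
    (rix f g : Matrix κ κ A) = (g : Matrix ι ι A).submatrix f.symm f.symm := rfl

private theorem K1Z_bs_mul (g g' : (Matrix ι ι A)ˣ) (h h' : (Matrix κ κ A)ˣ) :
    K1Z_bs g h * K1Z_bs g' h' = K1Z_bs (g * g') (h * h') := by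
  apply Units.ext
  rw [Units.val_mul, K1Z_bs_val, K1Z_bs_val, K1Z_bs_val, Matrix.fromBlocks_multiply]
  simp

private theorem K1Z_bs_one : K1Z_bs (1 : (Matrix ι ι A)ˣ) (1 : (Matrix κ κ A)ˣ) = 1 := by
  apply Units.ext
  rw [K1Z_bs_val, Units.val_one, Units.val_one, Units.val_one, Matrix.fromBlocks_one]

private theorem K1Z_rix_one (f : ι ≃ κ) : rix f (1 : (Matrix ι ι A)ˣ) = 1 := by
  unfold rix
  exact map_one _

private theorem K1Z_rix_trans (f : ι ≃ κ) (f' : κ ≃ μ) (g : (Matrix ι ι A)ˣ) :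
    rix f' (rix f g) = rix (f.trans f') g := by
  apply Units.ext
  rw [K1Z_rix_val, K1Z_rix_val, K1Z_rix_val, Matrix.submatrix_submatrix]
  rfl

private theorem K1Z_rix_bs (f : ι ≃ κ) (f' : μ ≃ ν) (g : (Matrix ι ι A)ˣ) (h : (Matrix μ μ A)ˣ) :
    rix (Equiv.sumCongr f f') (K1Z_bs g h) = K1Z_bs (rix f g) (rix f' h) := by
  apply Units.ext
  rw [K1Z_rix_val, K1Z_bs_val, K1Z_bs_val, K1Z_rix_val, K1Z_rix_val]
  ext i j
  rcases i with i | i <;> rcases j with j | j <;> rfl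

private theorem K1Z_assoc (g : (Matrix ι ι A)ˣ) (h : (Matrix κ κ A)ˣ) (l : (Matrix μ μ A)ˣ) :
    rix (Equiv.sumAssoc ι κ μ) (K1Z_bs (K1Z_bs g h) l) = K1Z_bs g (K1Z_bs h l) := by
  apply Units.ext
  rw [K1Z_rix_val, K1Z_bs_val, K1Z_bs_val, K1Z_bs_val, K1Z_bs_val]
  ext i j
  rcases i with i | i | i <;> rcases j with j | j | j <;> rfl

private theorem K1Z_comm (g : (Matrix ι ι A)ˣ) (h : (Matrix κ κ A)ˣ) :
    rix (Equiv.sumComm ι κ) (K1Z_bs g h) = K1Z_bs h g := by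
  apply Units.ext
  rw [K1Z_rix_val, K1Z_bs_val, K1Z_bs_val]
  ext i j
  rcases i with i | i <;> rcases j with j | j <;> rfl

/-- `(g ⊕ h) ⊕ l ≅ (g ⊕ l) ⊕ h` -/
private theorem K1Z_rc (g : (Matrix ι ι A)ˣ) (h : (Matrix κ κ A)ˣ) (l : (Matrix μ μ A)ˣ) :
    ∃ f : (ι ⊕ κ) ⊕ μ ≃ (ι ⊕ μ) ⊕ κ, rix f (K1Z_bs (K1Z_bs g h) l) = K1Z_bs (K1Z_bs g l) h := by
  refine ⟨((Equiv.sumAssoc ι κ μ).trans (Equiv.sumCongr (Equiv.refl ι) (Equiv.sumComm κ μ))).trans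
    (Equiv.sumAssoc ι μ κ).symm, ?_⟩
  apply Units.ext
  rw [K1Z_rix_val, K1Z_bs_val, K1Z_bs_val, K1Z_bs_val, K1Z_bs_val]
  ext i j
  rcases i with (i | i) | i <;> rcases j with (j | j) | j <;> rfl

end basics

section paths

variable {A : Type} [Ring A] [TopologicalSpace A]
variable {ι κ μ ν : Type} [Fintype ι] [DecidableEq ι] [Fintype κ] [DecidableEq κ] [Fintype μ] [DecidableEq μ]
  [Fintype ν] [DecidableEq ν]

private theorem K1Z_J (g h : (Matrix ι ι A)ˣ) :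
    Htp g h ↔ JoinedIn {m : Matrix ι ι A | IsUnit m} (g : Matrix ι ι A) (h : Matrix ι ι A) := by
  constructor
  · rintro ⟨γ, h1, h2, h3⟩
    exact ⟨⟨γ, h2, h3⟩, h1⟩
  · rintro ⟨γ, h1⟩
    exact ⟨γ.toContinuousMap, h1, γ.source, γ.target⟩

private theorem K1Z_refl (g : (Matrix ι ι A)ˣ) : Htp g g :=
  ⟨ContinuousMap.const _ (g : Matrix ι ι A), fun _ => g.isUnit, rfl, rfl⟩

private theorem K1Z_symm {g h : (Matrix ι ι A)ˣ} (H : Htp g h) : Htp h g := by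
  rw [K1Z_J] at H ⊢
  exact H.symm

private theorem K1Z_trans {g h l : (Matrix ι ι A)ˣ} (H : Htp g h) (H' : Htp h l) : Htp g l := by
  rw [K1Z_J] at H H' ⊢
  exact H.trans H'

private theorem K1Z_rixH (f : ι ≃ κ) {g h : (Matrix ι ι A)ˣ} (H : Htp g h) : Htp (rix f g) (rix f h) := by
  obtain ⟨γ, h1, h2, h3⟩ := H
  refine ⟨⟨fun t => (γ t).submatrix f.symm f.symm, γ.continuous.matrix_submatrix _ _⟩, fun t => ?_, ?_, ?_⟩
  · obtain ⟨w, hw⟩ := h1 t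
    refine ⟨rix f w, ?_⟩
    rw [K1Z_rix_val, hw]
    rfl
  · show (γ 0).submatrix f.symm f.symm = _
    rw [h2]
    rfl
  · show (γ 1).submatrix f.symm f.symm = _
    rw [h3]
    rfl

private theorem K1Z_rixH' (f : ι ≃ κ) {g h : (Matrix ι ι A)ˣ} (H : Htp (rix f g) (rix f h)) : Htp g h := by
  have h1 := K1Z_rixH f.symm H
  rw [K1Z_rix_trans, K1Z_rix_trans, Equiv.self_trans_symm] at h1
  exact h1

private theorem K1Z_bsH {g g' : (Matrix ι ι A)ˣ} {h h' : (Matrix κ κ A)ˣ} (H : Htp g g') (H' : Htp h h') :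
    Htp (K1Z_bs g h) (K1Z_bs g' h') := by
  obtain ⟨γ, h1, h2, h3⟩ := H
  obtain ⟨δ, i1, i2, i3⟩ := H'
  refine ⟨⟨fun t => Matrix.fromBlocks (γ t) 0 0 (δ t),
    γ.continuous.matrix_fromBlocks continuous_const continuous_const δ.continuous⟩, fun t => ?_, ?_, ?_⟩
  · obtain ⟨w, hw⟩ := h1 t
    obtain ⟨v, hv⟩ := i1 t
    refine ⟨K1Z_bs w v, ?_⟩
    rw [K1Z_bs_val, hw, hv]
    rfl
  · show Matrix.fromBlocks (γ 0) 0 0 (δ 0) = _
    rw [h2, i2]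
    rfl
  · show Matrix.fromBlocks (γ 1) 0 0 (δ 1) = _
    rw [h3, i3]
    rfl

end paths

section quotient

variable (A : Type) [Ring A] [TopologicalSpace A]

/-- the basic steps -/
private def K1Z_r (p q : InvMat A) : Prop :=
  ∃ (k : ℕ) (f : Fin p.n ⊕ Fin k ≃ Fin q.n), Htp (rix f (K1Z_bs p.g (1 : (Matrix (Fin k) (Fin k) A)ˣ))) q.g

private def K1Z_Q : Type := Quot (K1Z_r A)

variable {A}
variable {ι κ μ ν : Type} [Fintype ι] [DecidableEq ι] [Fintype κ] [DecidableEq κ] [Fintype μ] [DecidableEq μ]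
  [Fintype ν] [DecidableEq ν]

/-- the class of a matrix -/
private noncomputable def K1Z_c (g : (Matrix ι ι A)ˣ) : K1Z_Q A :=
  Quot.mk _ ⟨Fintype.card ι, rix (Fintype.equivFin ι) g⟩

/-- a step between arbitrary index sets -/
private theorem K1Z_step {α : Type} [Fintype α] [DecidableEq α] (g : (Matrix ι ι A)ˣ) (h : (Matrix κ κ A)ˣ)
    (f : ι ⊕ α ≃ κ) (H : Htp (rix f (K1Z_bs g (1 : (Matrix α α A)ˣ))) h) : K1Z_c g = K1Z_c h := by
  refine Quot.sound ⟨Fintype.card α, ((Equiv.sumCongr (Fintype.equivFin ι).symm (Fintype.equivFin α).symm).trans f).trans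
    (Fintype.equivFin κ), ?_⟩
  have h1 := K1Z_rixH (Fintype.equivFin κ) H
  rw [K1Z_rix_trans] at h1
  have h2 : rix ((((Equiv.sumCongr (Fintype.equivFin ι).symm (Fintype.equivFin α).symm).trans f).trans
      (Fintype.equivFin κ))) (K1Z_bs (rix (Fintype.equivFin ι) g)
      (1 : (Matrix (Fin (Fintype.card α)) (Fin (Fintype.card α)) A)ˣ)) =
      rix (f.trans (Fintype.equivFin κ)) (K1Z_bs g (1 : (Matrix α α A)ˣ)) := by
    rw [← K1Z_rix_one (Fintype.equivFin α), ← K1Z_rix_bs, K1Z_rix_trans]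
    congr 1
    ext x
    rcases x with x | x <;> simp
  show Htp (rix ((((Equiv.sumCongr (Fintype.equivFin ι).symm (Fintype.equivFin α).symm).trans f).trans
      (Fintype.equivFin κ))) (K1Z_bs (rix (Fintype.equivFin ι) g)
      (1 : (Matrix (Fin (Fintype.card α)) (Fin (Fintype.card α)) A)ˣ))) (rix (Fintype.equivFin κ) h)
  rw [h2]
  exact h1

private theorem K1Z_c_one (g : (Matrix ι ι A)ˣ) : K1Z_c (K1Z_bs g (1 : (Matrix κ κ A)ˣ)) = K1Z_c g := by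
  symm
  refine K1Z_step g _ (Equiv.refl _) ?_
  have : rix (Equiv.refl _) (K1Z_bs g (1 : (Matrix κ κ A)ˣ)) = K1Z_bs g (1 : (Matrix κ κ A)ˣ) := by
    apply Units.ext
    rfl
  rw [this]
  exact K1Z_refl _

private theorem K1Z_c_rix (f : ι ≃ κ) (g : (Matrix ι ι A)ˣ) : K1Z_c (rix f g) = K1Z_c g := by
  symm
  refine K1Z_step (α := Empty) g _ ((Equiv.sumEmpty ι Empty).trans f) ?_
  have : rix ((Equiv.sumEmpty ι Empty).trans f) (K1Z_bs g (1 : (Matrix Empty Empty A)ˣ)) = rix f g := by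
    apply Units.ext
    rw [K1Z_rix_val, K1Z_rix_val, K1Z_bs_val]
    ext i j
    rfl
  rw [this]
  exact K1Z_refl _

private theorem K1Z_c_htp {g h : (Matrix ι ι A)ˣ} (H : Htp g h) : K1Z_c g = K1Z_c h := by
  refine K1Z_step (α := Empty) g _ (Equiv.sumEmpty ι Empty) ?_
  have : rix (Equiv.sumEmpty ι Empty) (K1Z_bs g (1 : (Matrix Empty Empty A)ˣ)) = g := by
    apply Units.ext
    rw [K1Z_rix_val, K1Z_bs_val]
    ext i j
    rfl
  rw [this]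
  exact H

private theorem K1Z_mk (p : InvMat A) : (Quot.mk _ p : K1Z_Q A) = K1Z_c p.g := by
  refine Quot.sound ⟨0, (Equiv.sumEmpty (Fin p.n) (Fin 0)).trans (Fintype.equivFin (Fin p.n)), ?_⟩
  have : rix ((Equiv.sumEmpty (Fin p.n) (Fin 0)).trans (Fintype.equivFin (Fin p.n)))
      (K1Z_bs p.g (1 : (Matrix (Fin 0) (Fin 0) A)ˣ)) = rix (Fintype.equivFin (Fin p.n)) p.g := by
    apply Units.ext
    rw [K1Z_rix_val, K1Z_rix_val, K1Z_bs_val]
    ext i j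
    rfl
  show Htp (rix ((Equiv.sumEmpty (Fin p.n) (Fin 0)).trans (Fintype.equivFin (Fin p.n)))
      (K1Z_bs p.g (1 : (Matrix (Fin 0) (Fin 0) A)ˣ))) (rix (Fintype.equivFin (Fin p.n)) p.g)
  rw [this]
  exact K1Z_refl _

private theorem K1Z_ind {P : K1Z_Q A → Prop} (h : ∀ (n : ℕ) (g : (Matrix (Fin n) (Fin n) A)ˣ), P (K1Z_c g)) (x : K1Z_Q A) :
    P x := by
  induction x using Quot.ind with
  | mk p =>
    rw [K1Z_mk]
    exact h p.n p.g

private theorem K1Z_rix_refl (g : (Matrix ι ι A)ˣ) : rix (Equiv.refl ι) g = g := by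
  apply Units.ext
  rfl

private theorem K1Z_addr (g : (Matrix ι ι A)ˣ) (p q : InvMat A) (h : K1Z_r A p q) :
    K1Z_c (K1Z_bs g p.g) = K1Z_c (K1Z_bs g q.g) := by
  obtain ⟨k, f, H⟩ := h
  refine K1Z_step (α := Fin k) _ _ ((Equiv.sumAssoc _ _ _).trans (Equiv.sumCongr (Equiv.refl _) f)) ?_
  rw [← K1Z_rix_trans, K1Z_assoc, K1Z_rix_bs, K1Z_rix_refl]
  exact K1Z_bsH (K1Z_refl g) H

private theorem K1Z_addl (g : (Matrix ι ι A)ˣ) (p q : InvMat A) (h : K1Z_r A p q) :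
    K1Z_c (K1Z_bs p.g g) = K1Z_c (K1Z_bs q.g g) := by
  rw [← K1Z_c_rix (Equiv.sumComm _ _), K1Z_comm, K1Z_addr g p q h, ← K1Z_c_rix (Equiv.sumComm _ _), K1Z_comm]

/-- the sum -/
private noncomputable def K1Z_add (x y : K1Z_Q A) : K1Z_Q A :=
  Quot.liftOn x (fun p => Quot.liftOn y (fun q => K1Z_c (K1Z_bs p.g q.g)) (fun q q' h => K1Z_addr p.g q q' h))
    (fun p p' h => by
      induction y using Quot.ind with
      | mk q => exact K1Z_addl q.g p p' h)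

private theorem K1Z_add_c (g : (Matrix ι ι A)ˣ) (h : (Matrix κ κ A)ˣ) :
    K1Z_add (K1Z_c g) (K1Z_c h) = K1Z_c (K1Z_bs g h) := by
  show K1Z_c (K1Z_bs (rix (Fintype.equivFin ι) g) (rix (Fintype.equivFin κ) h)) = _
  rw [← K1Z_rix_bs, K1Z_c_rix]

private theorem K1Z_one (ι κ : Type) [Fintype ι] [DecidableEq ι] [Fintype κ] [DecidableEq κ] :
    K1Z_c (1 : (Matrix ι ι A)ˣ) = K1Z_c (1 : (Matrix κ κ A)ˣ) := by
  have h1 : K1Z_c (1 : (Matrix (ι ⊕ κ) (ι ⊕ κ) A)ˣ) = K1Z_c (1 : (Matrix ι ι A)ˣ) := by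
    rw [← K1Z_bs_one, K1Z_c_one]
  have h2 : K1Z_c (1 : (Matrix (κ ⊕ ι) (κ ⊕ ι) A)ˣ) = K1Z_c (1 : (Matrix κ κ A)ˣ) := by
    rw [← K1Z_bs_one, K1Z_c_one]
  rw [← h1, ← h2, ← K1Z_c_rix (Equiv.sumComm ι κ), K1Z_rix_one]

/-- the stable triviality -/
private def K1Z_T (p : InvMat A) : Prop := ∃ m : ℕ, Htp (K1Z_bs p.g (1 : (Matrix (Fin m) (Fin m) A)ˣ)) 1

private theorem K1Z_Tr (p q : InvMat A) (h : K1Z_r A p q) : K1Z_T p = K1Z_T q := by
  obtain ⟨k, f, H⟩ := h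
  apply propext
  have hbs : ∀ m : ℕ, K1Z_bs (rix f (K1Z_bs p.g (1 : (Matrix (Fin k) (Fin k) A)ˣ))) (1 : (Matrix (Fin m) (Fin m) A)ˣ) =
      rix (Equiv.sumCongr f (Equiv.refl (Fin m))) (K1Z_bs (K1Z_bs p.g (1 : (Matrix (Fin k) (Fin k) A)ˣ))
        (1 : (Matrix (Fin m) (Fin m) A)ˣ)) := by
    intro m
    rw [K1Z_rix_bs, K1Z_rix_refl]
  constructor
  · rintro ⟨m, hm⟩
    refine ⟨m, ?_⟩
    have h1 := K1Z_bsH (K1Z_symm H) (K1Z_refl (1 : (Matrix (Fin m) (Fin m) A)ˣ))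
    refine K1Z_trans h1 ?_
    rw [hbs]
    obtain ⟨F, hF⟩ := K1Z_rc p.g (1 : (Matrix (Fin m) (Fin m) A)ˣ) (1 : (Matrix (Fin k) (Fin k) A)ˣ)
    rw [← hF, K1Z_rix_trans]
    have h2 := K1Z_bsH hm (K1Z_refl (1 : (Matrix (Fin k) (Fin k) A)ˣ))
    rw [K1Z_bs_one] at h2
    have h3 := K1Z_rixH (F.trans (Equiv.sumCongr f (Equiv.refl (Fin m)))) h2
    rw [K1Z_rix_one] at h3
    exact h3
  · rintro ⟨m, hm⟩
    have h1 := K1Z_trans (K1Z_bsH H (K1Z_refl (1 : (Matrix (Fin m) (Fin m) A)ˣ))) hm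
    rw [hbs, ← K1Z_rix_one (Equiv.sumCongr f (Equiv.refl (Fin m)))] at h1
    have h2 := K1Z_rixH' _ h1
    have h3 := K1Z_rixH (Equiv.sumAssoc _ _ _) h2
    rw [K1Z_assoc, K1Z_bs_one, K1Z_rix_one] at h3
    have h4 := K1Z_rixH (Equiv.sumCongr (Equiv.refl _) finSumFinEquiv) h3
    rw [K1Z_rix_bs, K1Z_rix_refl, K1Z_rix_one, K1Z_rix_one] at h4
    exact ⟨k + m, h4⟩

private def K1Z_TQ : K1Z_Q A → Prop := Quot.lift K1Z_T K1Z_Tr

end quotient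

section group

variable {A : Type} [NormedRing A] [NormedAlgebra ℂ A]
variable {ι κ μ ν : Type} [Fintype ι] [DecidableEq ι] [Fintype κ] [DecidableEq κ] [Fintype μ] [DecidableEq μ]
  [Fintype ν] [DecidableEq ν]

private theorem K1Z_inv (hROT : ROT_stmt) (g : (Matrix ι ι A)ˣ) : Htp (K1Z_bs g g⁻¹) 1 := by
  obtain ⟨h1, h2, h3, W', h4, h5⟩ := hROT A ι (g : Matrix ι ι A) ((g⁻¹ : (Matrix ι ι A)ˣ) : Matrix ι ι A)
    g.mul_inv g.inv_mul
  refine K1Z_symm ⟨⟨fun t => rotW (g : Matrix ι ι A) ((g⁻¹ : (Matrix ι ι A)ˣ) : Matrix ι ι A) (t : ℝ),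
    h1.comp continuous_subtype_val⟩, fun t => ?_, ?_, ?_⟩
  · exact ⟨⟨_, W' t, (h5 t).2, (h5 t).1⟩, rfl⟩
  · show rotW _ _ (0 : ℝ) = _
    rw [h2]
    rfl
  · show rotW _ _ (1 : ℝ) = _
    rw [h3]
    rfl

private theorem K1Z_mulH {g g' h h' : (Matrix ι ι A)ˣ} (H : Htp g g') (H' : Htp h h') : Htp (g * h) (g' * h') := by
  obtain ⟨γ, h1, h2, h3⟩ := H
  obtain ⟨δ, i1, i2, i3⟩ := H'
  refine ⟨⟨fun t => γ t * δ t, γ.continuous.mul δ.continuous⟩, fun t => (h1 t).mul (i1 t), ?_, ?_⟩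
  · show γ 0 * δ 0 = _
    rw [h2, i2]
    rfl
  · show γ 1 * δ 1 = _
    rw [h3, i3]
    rfl

/-- `(g h) ⊕ 1` is joined to `g ⊕ h` -/
private theorem K1Z_wh (hROT : ROT_stmt) (g h : (Matrix ι ι A)ˣ) :
    Htp (K1Z_bs (g * h) (1 : (Matrix ι ι A)ˣ)) (K1Z_bs g h) := by
  have e1 : K1Z_bs (g * h) (1 : (Matrix ι ι A)ˣ) = K1Z_bs g h * K1Z_bs h h⁻¹ := by
    rw [K1Z_bs_mul, mul_inv_cancel]
  rw [e1]
  have h1 := K1Z_mulH (K1Z_refl (K1Z_bs g h)) (K1Z_inv hROT h)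
  rw [mul_one] at h1
  exact h1

@[reducible] private noncomputable def K1Z_grp (hROT : ROT_stmt) : AddCommGroup (K1Z_Q A) := by
  have hz : ∀ x : K1Z_Q A, K1Z_add (K1Z_c (1 : (Matrix (Fin 0) (Fin 0) A)ˣ)) x = x := by
    intro x
    induction x using K1Z_ind with
    | h n g =>
      rw [K1Z_add_c, ← K1Z_c_rix (Equiv.sumComm _ _), K1Z_comm, K1Z_c_one]
  have hc : ∀ x y : K1Z_Q A, K1Z_add x y = K1Z_add y x := by
    intro x y
    induction x using K1Z_ind with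
    | h n g =>
      induction y using K1Z_ind with
      | h m h =>
        rw [K1Z_add_c, K1Z_add_c, ← K1Z_c_rix (Equiv.sumComm _ _), K1Z_comm]
  have ha : ∀ x y z : K1Z_Q A, K1Z_add (K1Z_add x y) z = K1Z_add x (K1Z_add y z) := by
    intro x y z
    induction x using K1Z_ind with
    | h n g =>
      induction y using K1Z_ind with
      | h m h =>
        induction z using K1Z_ind with
        | h k l =>
          rw [K1Z_add_c, K1Z_add_c, K1Z_add_c, K1Z_add_c, ← K1Z_c_rix (Equiv.sumAssoc _ _ _), K1Z_assoc]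
  have hi : ∀ x : K1Z_Q A, ∃ y, K1Z_add y x = K1Z_c (1 : (Matrix (Fin 0) (Fin 0) A)ˣ) := by
    intro x
    induction x using K1Z_ind with
    | h n g =>
      refine ⟨K1Z_c g⁻¹, ?_⟩
      have h1 := K1Z_inv hROT g⁻¹
      rw [inv_inv] at h1
      rw [K1Z_add_c, K1Z_c_htp h1]
      exact K1Z_one _ _
  letI : Add (K1Z_Q A) := ⟨K1Z_add⟩
  letI : Zero (K1Z_Q A) := ⟨K1Z_c (1 : (Matrix (Fin 0) (Fin 0) A)ˣ)⟩
  letI : Neg (K1Z_Q A) := ⟨fun x => Classical.choose (hi x)⟩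
  exact
    { AddGroup.ofLeftAxioms ha hz (fun x => Classical.choose_spec (hi x)) with
      add_comm := hc }

end group

theorem K1Z (hROT : ROT_stmt) : K1Z_stmt := by
  intro A _ _ ι _ _ g hg
  let _ : AddCommGroup (K1Z_Q A) := K1Z_grp hROT
  have hadd : ∀ {ι κ : Type} [Fintype ι] [DecidableEq ι] [Fintype κ] [DecidableEq κ] (g : (Matrix ι ι A)ˣ)
      (h : (Matrix κ κ A)ˣ), K1Z_c g + K1Z_c h = K1Z_c (K1Z_bs g h) := fun g h => K1Z_add_c g h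
  let Φ : FreeAbelianGroup (InvMat A) →+ K1Z_Q A := FreeAbelianGroup.lift fun p => K1Z_c p.g
  have hΦ : ∀ p : InvMat A, Φ (FreeAbelianGroup.of p) = K1Z_c p.g := fun p => FreeAbelianGroup.lift_apply_of _ _
  have hker : AddSubgroup.closure (K1Rel A) ≤ Φ.ker := by
    rw [AddSubgroup.closure_le]
    rintro z (⟨n, g, h, rfl⟩ | ⟨n, m, g, h, k, hk, rfl⟩ | ⟨n, g, h, H, rfl⟩)
    · show Φ _ = 0
      rw [map_sub, map_sub, hΦ, hΦ, hΦ]
      have h1 : K1Z_c (g * h) = K1Z_c g + K1Z_c h := by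
        rw [hadd, ← K1Z_c_htp (K1Z_wh hROT g h), K1Z_c_one]
      show K1Z_c (g * h) - K1Z_c g - K1Z_c h = 0
      rw [h1]
      abel
    · show Φ _ = 0
      rw [map_sub, map_sub, hΦ, hΦ, hΦ]
      have h0 : k = rix finSumFinEquiv (K1Z_bs g h) := by
        apply Units.ext
        rw [hk]
        rfl
      have h1 : K1Z_c k = K1Z_c g + K1Z_c h := by
        rw [hadd, h0, K1Z_c_rix]
      show K1Z_c k - K1Z_c g - K1Z_c h = 0
      rw [h1]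
      abel
    · show Φ _ = 0
      rw [map_sub, hΦ, hΦ]
      show K1Z_c g - K1Z_c h = 0
      rw [K1Z_c_htp H, sub_self]
  have h1 : FreeAbelianGroup.of (⟨Fintype.card ι, rix (Fintype.equivFin ι) g⟩ : InvMat A) ∈
      AddSubgroup.closure (K1Rel A) := by
    have h2 : cls1 (⟨Fintype.card ι, rix (Fintype.equivFin ι) g⟩ : InvMat A) = 0 := hg
    exact (QuotientAddGroup.eq_zero_iff _).1 h2
  have h2 : K1Z_c (rix (Fintype.equivFin ι) g) = 0 := by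
    have := hker h1
    rw [AddMonoidHom.mem_ker, hΦ] at this
    exact this
  rw [K1Z_c_rix] at h2
  have h3 : K1Z_TQ (K1Z_c g) := by
    rw [h2]
    show K1Z_TQ (K1Z_c (1 : (Matrix (Fin 0) (Fin 0) A)ˣ))
    show ∃ m : ℕ, Htp (K1Z_bs (rix (Fintype.equivFin (Fin 0)) (1 : (Matrix (Fin 0) (Fin 0) A)ˣ))
      (1 : (Matrix (Fin m) (Fin m) A)ˣ)) 1
    refine ⟨0, ?_⟩
    rw [K1Z_rix_one, K1Z_bs_one]
    exact K1Z_refl _
  obtain ⟨m, hm⟩ : ∃ m : ℕ, Htp (K1Z_bs (rix (Fintype.equivFin ι) g) (1 : (Matrix (Fin m) (Fin m) A)ˣ)) 1 := h3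
  refine ⟨m, K1Z_bs g (1 : (Matrix (Fin m) (Fin m) A)ˣ), rfl, ?_⟩
  have h4 : K1Z_bs (rix (Fintype.equivFin ι) g) (1 : (Matrix (Fin m) (Fin m) A)ˣ) =
      rix (Equiv.sumCongr (Fintype.equivFin ι) (Equiv.refl (Fin m))) (K1Z_bs g 1) := by
    rw [K1Z_rix_bs, K1Z_rix_refl]
  rw [h4, ← K1Z_rix_one (Equiv.sumCongr (Fintype.equivFin ι) (Equiv.refl (Fin m)))] at hm
  exact K1Z_rixH' _ hm

end Pool.Agent.PV
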