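import Pool.Agent.helper77.PV.SpecA

/-!
# Row pv:ROT (MP_376aaf_an): the rotation path
-/

set_option autoImplicit false

open scoped Matrix Topology
open Filter

namespace Pool.Agent.PV

open Pool.Agent.CZ

private theorem ROT_R {A : Type} [NormedRing A] [NormedAlgebra ℂ A] {ι : Type} [Fintype ι] [DecidableEq ι] (s : ℝ) :
    rotR A ι s * rotR A ι (-s) = 1 := by
  unfold rotR
  have e0 : Real.pi * -s / 2 = -(Real.pi * s / 2) := by ring
  rw [e0, Real.cos_neg, Real.sin_neg]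
  obtain ⟨a, ha⟩ : ∃ a : ℝ, a = Real.cos (Real.pi * s / 2) := ⟨_, rfl⟩
  obtain ⟨b, hb⟩ : ∃ b : ℝ, b = Real.sin (Real.pi * s / 2) := ⟨_, rfl⟩
  have hab : (a : ℂ) * a + (b : ℂ) * b = 1 := by
    have := Real.cos_sq_add_sin_sq (Real.pi * s / 2)
    rw [← ha, ← hb] at this
    have h2 : a * a + b * b = 1 := by nlinarith
    exact_mod_cast h2
  rw [← ha, ← hb, Matrix.fromBlocks_multiply, ← Matrix.fromBlocks_one]
  have e1 : ∀ x y : ℂ, (x • (1 : Matrix ι ι A)) * (y • (1 : Matrix ι ι A)) = (x * y) • (1 : Matrix ι ι A) := by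
    intro x y
    rw [smul_mul_smul_comm, mul_one]
  have e2 : (((-b : ℝ) : ℂ)) = -(b : ℂ) := by push_cast; rfl
  rw [e2]
  simp only [neg_mul, mul_neg, e1, neg_smul, neg_neg]
  congr 1
  · rw [← add_smul, hab, one_smul]
  · rw [← sub_eq_add_neg, ← sub_smul, mul_comm (b : ℂ) a, sub_self, zero_smul]
  · rw [← sub_eq_add_neg, ← sub_smul, mul_comm (b : ℂ) a, sub_self, zero_smul]
  · rw [← add_smul, add_comm ((b : ℂ) * b), hab, one_smul]

private theorem ROT_R' {A : Type} [NormedRing A] [NormedAlgebra ℂ A] {ι : Type} [Fintype ι] [DecidableEq ι] (s : ℝ) :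
    rotR A ι (-s) * rotR A ι s = 1 := by
  have := ROT_R (A := A) (ι := ι) (-s)
  rwa [neg_neg] at this

private theorem ROT_c {A : Type} [NormedRing A] [NormedAlgebra ℂ A] {ι : Type} [Fintype ι] [DecidableEq ι] :
    Continuous (rotR A ι) := by
  unfold rotR
  have h1 : Continuous fun s : ℝ => ((Real.cos (Real.pi * s / 2) : ℝ) : ℂ) :=
    Complex.continuous_ofReal.comp (Real.continuous_cos.comp ((continuous_const.mul continuous_id).div_const 2))
  have h2 : Continuous fun s : ℝ => ((Real.sin (Real.pi * s / 2) : ℝ) : ℂ) :=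
    Complex.continuous_ofReal.comp (Real.continuous_sin.comp ((continuous_const.mul continuous_id).div_const 2))
  have h3 : Continuous fun s : ℝ => ((Real.cos (Real.pi * s / 2) : ℝ) : ℂ) • (1 : Matrix ι ι A) := h1.smul continuous_const
  have h4 : Continuous fun s : ℝ => ((Real.sin (Real.pi * s / 2) : ℝ) : ℂ) • (1 : Matrix ι ι A) := h2.smul continuous_const
  exact h3.matrix_fromBlocks h4.neg h4 h3

private theorem ROT_c' {A : Type} [NormedRing A] [NormedAlgebra ℂ A] {ι : Type} [Fintype ι] [DecidableEq ι] :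
    Continuous fun s : ℝ => rotR A ι (-s) := ROT_c.comp continuous_neg

private theorem ROT_0 {A : Type} [NormedRing A] [NormedAlgebra ℂ A] {ι : Type} [Fintype ι] [DecidableEq ι] :
    rotR A ι 0 = 1 := by
  unfold rotR
  rw [mul_zero, zero_div, Real.cos_zero, Real.sin_zero, ← Matrix.fromBlocks_one]
  simp

private theorem ROT_1 {A : Type} [NormedRing A] [NormedAlgebra ℂ A] {ι : Type} [Fintype ι] [DecidableEq ι] :
    rotR A ι 1 = Matrix.fromBlocks 0 (-1) 1 0 := by
  unfold rotR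
  rw [mul_one, Real.cos_pi_div_two, Real.sin_pi_div_two]
  simp

private theorem ROT_m1 {A : Type} [NormedRing A] [NormedAlgebra ℂ A] {ι : Type} [Fintype ι] [DecidableEq ι] :
    rotR A ι (-1) = Matrix.fromBlocks 0 1 (-1) 0 := by
  unfold rotR
  have e0 : Real.pi * -1 / 2 = -(Real.pi / 2) := by ring
  rw [e0, Real.cos_neg, Real.sin_neg, Real.cos_pi_div_two, Real.sin_pi_div_two]
  simp

theorem ROT : ROT_stmt := by
  intro A _ _ ι _ _ g g' h1 h2
  have hD : Matrix.fromBlocks g 0 0 (1 : Matrix ι ι A) * Matrix.fromBlocks g' 0 0 1 = 1 := by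
    rw [Matrix.fromBlocks_multiply, ← Matrix.fromBlocks_one, h1]
    simp
  have hD' : Matrix.fromBlocks g' 0 0 (1 : Matrix ι ι A) * Matrix.fromBlocks g 0 0 1 = 1 := by
    rw [Matrix.fromBlocks_multiply, ← Matrix.fromBlocks_one, h2]
    simp
  refine ⟨?_, ?_, ?_, fun s => rotR A ι s * Matrix.fromBlocks g 0 0 1 * rotR A ι (-s) * Matrix.fromBlocks g' 0 0 1, ?_, ?_⟩
  · unfold rotW
    have c1 : Continuous (rotR A ι) := ROT_c
    have c2 : Continuous fun s : ℝ => rotR A ι (-s) := ROT_c'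
    exact ((continuous_const.mul c1).mul continuous_const).mul c2
  · unfold rotW
    rw [neg_zero, ROT_0, mul_one, mul_one, hD]
  · unfold rotW
    rw [ROT_1, ROT_m1, Matrix.fromBlocks_multiply, Matrix.fromBlocks_multiply, Matrix.fromBlocks_multiply]
    simp
  · have c1 : Continuous (rotR A ι) := ROT_c
    have c2 : Continuous fun s : ℝ => rotR A ι (-s) := ROT_c'
    exact ((c1.mul continuous_const).mul c2).mul continuous_const
  · intro s
    unfold rotW
    obtain ⟨D, hDd⟩ : ∃ D : Matrix (ι ⊕ ι) (ι ⊕ ι) A, D = Matrix.fromBlocks g 0 0 1 := ⟨_, rfl⟩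
    obtain ⟨D', hDd'⟩ : ∃ D : Matrix (ι ⊕ ι) (ι ⊕ ι) A, D = Matrix.fromBlocks g' 0 0 1 := ⟨_, rfl⟩
    rw [← hDd, ← hDd'] at hD hD'
    show rotR A ι s * Matrix.fromBlocks g 0 0 1 * rotR A ι (-s) * Matrix.fromBlocks g' 0 0 1 *
        (Matrix.fromBlocks g 0 0 1 * rotR A ι s * Matrix.fromBlocks g' 0 0 1 * rotR A ι (-s)) = 1 ∧
        Matrix.fromBlocks g 0 0 1 * rotR A ι s * Matrix.fromBlocks g' 0 0 1 * rotR A ι (-s) *
        (rotR A ι s * Matrix.fromBlocks g 0 0 1 * rotR A ι (-s) * Matrix.fromBlocks g' 0 0 1) = 1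
    rw [← hDd, ← hDd']
    have r1 := ROT_R (A := A) (ι := ι) s
    have r2 := ROT_R' (A := A) (ι := ι) s
    obtain ⟨R, hR⟩ : ∃ R : Matrix (ι ⊕ ι) (ι ⊕ ι) A, R = rotR A ι s := ⟨_, rfl⟩
    obtain ⟨R', hR'⟩ : ∃ R : Matrix (ι ⊕ ι) (ι ⊕ ι) A, R = rotR A ι (-s) := ⟨_, rfl⟩
    rw [← hR, ← hR'] at r1 r2
    rw [← hR, ← hR']
    constructor
    · calc R * D * R' * D' * (D * R * D' * R') = R * D * R' * (D' * D) * R * D' * R' := by simp only [mul_assoc]
        _ = R * D * (R' * R) * D' * R' := by rw [hD', mul_one]; simp only [mul_assoc]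
        _ = R * (D * D') * R' := by rw [r2, mul_one]; simp only [mul_assoc]
        _ = 1 := by rw [hD, mul_one, r1]
    · calc D * R * D' * R' * (R * D * R' * D') = D * R * D' * (R' * R) * D * R' * D' := by simp only [mul_assoc]
        _ = D * R * (D' * D) * R' * D' := by rw [r2, mul_one]; simp only [mul_assoc]
        _ = D * (R * R') * D' := by rw [hD', mul_one]; simp only [mul_assoc]
        _ = 1 := by rw [r1, mul_one, hD]

end Pool.Agent.PV
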